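import Pool.Agent.H.MP_9991fb_an.D

namespace Pool.Agent.Results.MP_5544e1_an.Yes

theorem result : ∃ (X : Type) (_ : NormedAddCommGroup X) (_ : NormedSpace ℝ X)
    (_ : CompleteSpace X),
    (∀ (T : Type) [NormedAddCommGroup T] [NormedSpace ℝ T] [FiniteDimensional ℝ T]
      (S : Submodule ℝ T) (f : S →ₗᵢ[ℝ] X), ∃ g : T →ₗᵢ[ℝ] X, ∀ s : S, g s = f s) ∧
    ∃ N : Seminorm ℝ X, (∃ C : ℝ, ∀ x, ‖x‖ ≤ C * N x ∧ N x ≤ C * ‖x‖) ∧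
      ∀ x y, N (x + y) = 2 * N x → 2 * N x = 2 * N y → x = y := by
  obtain ⟨X, i1, i2, i3, v, F⟩ := Pool.Agent.H.MP_9991fb_an.exFr (Γ := Unit) 0 True le_rfl
  obtain ⟨φ, h1, h2⟩ := F.total
  refine ⟨X, i1, i2, i3, fun T _ _ _ S f => ?_, Pool.Agent.H.MP_9991fb_an.rotund φ h1 h2⟩
  have := FiniteDimensional.proper_real T
  exact F.ud (fun _ => inferInstance) f S.subtypeₗᵢ

end Pool.Agent.Results.MP_5544e1_an.Yes
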